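import Mathlib

namespace Pool.Agent.Results.MP_079569_co.FlowerDeterminant

open Finset

set_option linter.unusedSectionVars false

variable {V : Type*} [Fintype V] [DecidableEq V]

/-- A matching of `G`, encoded by its partner map: an involution `μ` such that `v` and `μ v` are
adjacent unless `μ v = v`, which means that `v` is left uncovered. -/
def IsMatch (G : SimpleGraph V) (μ : V → V) : Prop :=
  (∀ v, μ (μ v) = v) ∧ ∀ v, μ v ≠ v → G.Adj v (μ v)

/-- A maximum matching: a matching such that no matching covers more vertices. -/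
def IsMax (G : SimpleGraph V) (μ : V → V) : Prop :=
  IsMatch G μ ∧ ∀ ν : V → V, IsMatch G ν →
    (univ.filter fun v => ν v ≠ v).card ≤ (univ.filter fun v => μ v ≠ v).card

/-- The vertices `a₁, s₁, …, a_t, s_t` of a list of pairs `[(a₁, s₁), …, (a_t, s_t)]`. -/
def flat : List (V × V) → List V
  | [] => []
  | p :: L => p.1 :: p.2 :: flat L

/-- The last vertex of the sequence `x, a₁, s₁, …, a_t, s_t`. -/
def endp : V → List (V × V) → V
  | x, [] => x
  | _, p :: L => endp p.2 L

/-- The sequence `x, a₁, s₁, …, a_t, s_t` is alternating: `x` is adjacent to `a₁`, every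
`s_i` is adjacent to `a_{i+1}`, and every `a_i s_i` is an edge of the matching `μ`. -/
def Alt (G : SimpleGraph V) (μ : V → V) : V → List (V × V) → Prop
  | _, [] => True
  | x, p :: L => G.Adj x p.1 ∧ μ p.1 = p.2 ∧ p.1 ≠ p.2 ∧ Alt G μ p.2 L

/-- The edges joining cyclically consecutive members of a list. -/
def cycEdges (l : List V) : Finset (Sym2 V) :=
  ((l.zip (l.rotate 1)).map fun p => s(p.1, p.2)).toFinset

/-- `E` is the edge set of an odd cycle of `G`. -/
def IsOddCycle (G : SimpleGraph V) (E : Finset (Sym2 V)) : Prop :=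
  ∃ l : List V, l.Nodup ∧ 3 ≤ l.length ∧ Odd l.length ∧ (∀ e ∈ cycEdges l, e ∈ G.edgeSet) ∧
    cycEdges l = E

/-- A flower of the maximum matching `μ`: the stem is the alternating path from the uncovered
vertex `u` along `L` to the base `b = endp u L`, the blossom is the odd cycle formed by `b` and
the vertices of `B`, which apart from `b` are matched along the cycle, and the stem and the
blossom share only `b`. -/
structure IsFlower (G : SimpleGraph V) (μ : V → V) (u : V) (L B : List (V × V)) : Prop where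
  max : IsMax G μ
  root : μ u = u
  stem : Alt G μ u L
  blossom : Alt G μ (endp u L) B
  ne : B ≠ []
  closed : G.Adj (endp (endp u L) B) (endp u L)
  nodup : (u :: (flat L ++ flat B)).Nodup

/-- The reach set of the odd cycle with edge set `E`: the vertices of all flowers, of all
maximum matchings, whose blossom is this cycle. -/
def reach (G : SimpleGraph V) (E : Finset (Sym2 V)) : Set V :=
  {v | ∃ (μ : V → V) (u : V) (L B : List (V × V)), IsFlower G μ u L B ∧
    cycEdges (endp u L :: flat B) = E ∧ v ∈ u :: (flat L ++ flat B)}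

/-- `R`-disjoint graphs. -/
structure RDisjoint (G : SimpleGraph V) : Prop where
  exists_cycle : ∃ E, IsOddCycle G E
  nonempty : ∀ E, IsOddCycle G E → (reach G E).Nonempty
  disjoint : ∀ E E', IsOddCycle G E → IsOddCycle G E' → E ≠ E' →
    Disjoint (reach G E) (reach G E')

/-- The vertices outside all reach sets. -/
def rest (G : SimpleGraph V) : Set V := {v | ∀ E, IsOddCycle G E → v ∉ reach G E}

open Classical in
/-- The edge sets of the odd cycles of `G`. -/
noncomputable def oddCycles (G : SimpleGraph V) : Finset (Finset (Sym2 V)) :=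
  univ.filter fun E => IsOddCycle G E

open Classical in
/-- The determinant of the adjacency matrix of the subgraph induced on `X`. -/
noncomputable def adjDet (G : SimpleGraph V) (X : Set V) : ℝ :=
  ((G.induce X).adjMatrix ℝ).det

/-! ### Lists of pairs -/

theorem flat_append (L K : List (V × V)) : flat (L ++ K) = flat L ++ flat K := by
  induction L with
  | nil => rfl
  | cons p L ih => simp [flat, ih]

theorem endp_append (x : V) (L K : List (V × V)) : endp x (L ++ K) = endp (endp x L) K := by
  induction L generalizing x with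
  | nil => rfl
  | cons p L ih => simp [endp, ih]

theorem endp_mem (x : V) (L : List (V × V)) : endp x L ∈ x :: flat L := by
  induction L generalizing x with
  | nil => simp [endp]
  | cons p L ih =>
    have := ih p.2
    simp only [endp, flat, List.mem_cons] at this ⊢
    tauto

theorem alt_append (G : SimpleGraph V) (μ : V → V) (x : V) (L K : List (V × V)) :
    Alt G μ x (L ++ K) ↔ Alt G μ x L ∧ Alt G μ (endp x L) K := by
  induction L generalizing x with
  | nil => simp [Alt, endp]
  | cons p L ih => simp [Alt, endp, ih, and_assoc]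

theorem alt_congr {G : SimpleGraph V} {μ ν : V → V} {x : V} {L : List (V × V)}
    (h : Alt G μ x L) (hc : ∀ v ∈ flat L, ν v = μ v) : Alt G ν x L := by
  induction L generalizing x with
  | nil => trivial
  | cons p L ih =>
    obtain ⟨h1, h2, h3, h4⟩ := h
    refine ⟨h1, ?_, h3, ih h4 fun v hv => hc v ?_⟩
    · rw [hc p.1 (by simp [flat]), h2]
    · simp [flat, hv]

/-- Partners in an alternating list: every vertex of `flat L` is matched inside `flat L`. -/
theorem alt_partner {G : SimpleGraph V} {μ : V → V} (hμ : ∀ v, μ (μ v) = v) {x : V}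
    {L : List (V × V)} (h : Alt G μ x L) {v : V} (hv : v ∈ flat L) :
    μ v ∈ flat L ∧ μ v ≠ v := by
  induction L generalizing x with
  | nil => simp [flat] at hv
  | cons p L ih =>
    obtain ⟨h1, h2, h3, h4⟩ := h
    simp only [flat, List.mem_cons] at hv ⊢
    rcases hv with rfl | rfl | hv
    · exact ⟨Or.inr (Or.inl h2), by rw [h2]; exact h3.symm⟩
    · have : μ p.2 = p.1 := by rw [← h2, hμ]
      exact ⟨Or.inl this, by rw [this]; exact h3⟩
    · obtain ⟨h5, h6⟩ := ih h4 hv
      exact ⟨Or.inr (Or.inr h5), h6⟩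

/-- The reversed path. -/
def revp : V → List (V × V) → List (V × V)
  | _, [] => []
  | x, p :: L => revp p.2 L ++ [(p.1, x)]

theorem mem_revp (x : V) (L : List (V × V)) (v : V) :
    v ∈ endp x L :: flat (revp x L) ↔ v ∈ x :: flat L := by
  induction L generalizing x with
  | nil => simp [endp, revp, flat]
  | cons p L ih =>
    have := ih p.2
    simp only [endp, revp, flat, flat_append, List.mem_cons, List.mem_append,
      List.not_mem_nil, or_false] at this ⊢
    tauto

theorem length_flat (L : List (V × V)) : (flat L).length = 2 * L.length := by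
  induction L with
  | nil => rfl
  | cons p L ih => simp [flat, ih]; ring

theorem length_revp (x : V) (L : List (V × V)) : (revp x L).length = L.length := by
  induction L generalizing x with
  | nil => rfl
  | cons p L ih => simp [revp, ih]

theorem revp_perm (x : V) (L : List (V × V)) :
    List.Perm (endp x L :: flat (revp x L)) (x :: flat L) := by
  induction L generalizing x with
  | nil => simp [endp, revp, flat]
  | cons p L ih =>
    have h := ih p.2
    simp only [endp, revp, flat, flat_append]
    have h1 : List.Perm (endp p.2 L :: (flat (revp p.2 L) ++ [p.1, x]))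
        ((p.2 :: flat L) ++ [p.1, x]) := by
      have := h.append_right [p.1, x]
      simpa using this
    refine h1.trans ?_
    refine (List.perm_append_comm).trans ?_
    simp only [List.cons_append, List.nil_append]
    exact List.Perm.swap _ _ _

theorem endp_revp (x : V) (L : List (V × V)) : endp (endp x L) (revp x L) = x := by
  cases L with
  | nil => rfl
  | cons p L => simp [endp, revp, endp_append]

/-! ### Exchanging along paths -/

/-- The matching obtained from `μ` by matching the uncovered vertex `u` with `w` and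
uncovering `μ w`. -/
def sw (μ : V → V) (u w : V) : V → V :=
  fun v => Equiv.swap u (μ w) (μ (Equiv.swap u (μ w) v))

theorem max_covers {G : SimpleGraph V} {μ : V → V} (hμ : IsMax G μ) {u w : V} (hu : μ u = u)
    (huw : G.Adj u w) : μ w ≠ w := by
  intro hw
  obtain ⟨⟨h1, h2⟩, h3⟩ := hμ
  have hne : u ≠ w := huw.ne
  have hval : ∀ v, v ≠ u → v ≠ w → μ v ≠ u ∧ μ v ≠ w := by
    intro v hvu hvw
    refine ⟨fun h => hvu ?_, fun h => hvw ?_⟩
    · have := h1 v; rw [h, hu] at this; exact this.symm
    · have := h1 v; rw [h, hw] at this; exact this.symm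
  have hsv : ∀ v, v ≠ u → v ≠ w → Equiv.swap u w (μ v) = μ v := by
    intro v hvu hvw
    exact Equiv.swap_apply_of_ne_of_ne (hval v hvu hvw).1 (hval v hvu hvw).2
  have hν : IsMatch G (fun v => Equiv.swap u w (μ v)) := by
    constructor
    · intro v
      by_cases hvu : v = u
      · subst hvu; simp [hu, hw]
      · by_cases hvw : v = w
        · subst hvw; simp [hu, hw]
        · simp only [hsv v hvu hvw]
          rw [h1, Equiv.swap_apply_of_ne_of_ne hvu hvw]
    · intro v hv
      by_cases hvu : v = u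
      · subst hvu; simpa [hu] using huw
      · by_cases hvw : v = w
        · subst hvw; simpa [hw] using huw.symm
        · simp only [hsv v hvu hvw] at hv ⊢
          exact h2 v hv
  have h4 := h3 _ hν
  have h5 : (univ.filter fun v => μ v ≠ v) ⊂ (univ.filter fun v => Equiv.swap u w (μ v) ≠ v) := by
    rw [Finset.ssubset_iff_of_subset]
    · refine ⟨u, ?_, ?_⟩
      · simp [hu, hne.symm]
      · simp [hu]
    · intro v hv
      simp only [mem_filter, mem_univ, true_and] at hv ⊢
      have hvu : v ≠ u := by rintro rfl; exact hv hu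
      have hvw : v ≠ w := by rintro rfl; exact hv hw
      rw [hsv v hvu hvw]; exact hv
  exact absurd (Finset.card_lt_card h5) (not_lt.mpr h4)

theorem sw_left {μ : V → V} (h1 : ∀ v, μ (μ v) = v) {u w : V} (hwu : w ≠ u) (hmw : μ w ≠ w) :
    sw μ u w u = w := by
  simp only [sw, Equiv.swap_apply_left, h1]
  exact Equiv.swap_apply_of_ne_of_ne hwu hmw.symm

theorem sw_mid {μ : V → V} {u w : V} (hwu : w ≠ u) (hmw : μ w ≠ w) :
    sw μ u w w = u := by
  simp only [sw]
  rw [Equiv.swap_apply_of_ne_of_ne hwu hmw.symm, Equiv.swap_apply_right]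

theorem sw_right {μ : V → V} {u w : V} (hu : μ u = u) : sw μ u w (μ w) = μ w := by
  simp only [sw, Equiv.swap_apply_right, hu, Equiv.swap_apply_left]

theorem sw_other {μ : V → V} (h1 : ∀ v, μ (μ v) = v) {u w v : V} (hu : μ u = u)
    (hvu : v ≠ u) (hvw : v ≠ w) (hvm : v ≠ μ w) : sw μ u w v = μ v := by
  simp only [sw]
  rw [Equiv.swap_apply_of_ne_of_ne hvu hvm, Equiv.swap_apply_of_ne_of_ne]
  · intro h
    have := h1 v
    rw [h, hu] at this
    exact hvu this.symm
  · intro h
    have := congrArg μ h
    rw [h1, h1] at this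
    exact hvw this

theorem sw_max {G : SimpleGraph V} {μ : V → V} (hμ : IsMax G μ) {u w : V} (hu : μ u = u)
    (huw : G.Adj u w) : IsMax G (sw μ u w) := by
  have hmw := max_covers hμ hu huw
  obtain ⟨⟨h1, h2⟩, h3⟩ := hμ
  have hwu : w ≠ u := huw.ne'
  have hinv : ∀ v, sw μ u w (sw μ u w v) = v := by
    intro v; simp only [sw, Equiv.swap_apply_self, h1]
  refine ⟨⟨hinv, ?_⟩, ?_⟩
  · intro v hv
    by_cases hvu : v = u
    · subst hvu; rw [sw_left h1 hwu hmw]; exact huw
    · by_cases hvw : v = w
      · subst hvw; rw [sw_mid hwu hmw]; exact huw.symm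
      · by_cases hvm : v = μ w
        · subst hvm; exact absurd (sw_right hu) hv
        · rw [sw_other h1 hu hvu hvw hvm] at hv ⊢
          exact h2 v hv
  · intro ν hν
    have h4 : (univ.filter fun v => sw μ u w v ≠ v).card = (univ.filter fun v => μ v ≠ v).card := by
      refine Finset.card_bij (fun v _ => Equiv.swap u (μ w) v) ?_ ?_ ?_
      · intro v hv
        rw [mem_filter] at hv ⊢
        refine ⟨mem_univ _, fun h => hv.2 ?_⟩
        simp only [sw]
        rw [h, Equiv.swap_apply_self]
      · intro a _ b _ h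
        exact (Equiv.swap u (μ w)).injective h
      · intro b hb
        refine ⟨Equiv.swap u (μ w) b, ?_, by simp⟩
        rw [mem_filter] at hb ⊢
        refine ⟨mem_univ _, fun h => hb.2 ?_⟩
        simp only [sw, Equiv.swap_apply_self] at h
        exact (Equiv.swap u (μ w)).injective h
    rw [h4]
    exact h3 ν hν

/-- Shifting a maximum matching along an alternating path from an uncovered vertex. -/
theorem shift {G : SimpleGraph V} {μ : V → V} (hμ : IsMax G μ) {u : V} (hu : μ u = u)
    {L : List (V × V)} (hL : Alt G μ u L) (hn : (u :: flat L).Nodup) :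
    ∃ μ' : V → V, IsMax G μ' ∧ μ' (endp u L) = endp u L ∧ Alt G μ' (endp u L) (revp u L) ∧
      ∀ v, v ∉ u :: flat L → μ' v = μ v := by
  induction L generalizing u μ with
  | nil => exact ⟨μ, hμ, hu, trivial, fun _ _ => rfl⟩
  | cons p L ih =>
    obtain ⟨h1, h2, h3, h4⟩ := hL
    have hmw := max_covers hμ hu h1
    have hsm := sw_max hμ hu h1
    have hinv := hμ.1.1
    have hwu : p.1 ≠ u := h1.ne'
    have hn' : (p.2 :: flat L).Nodup := by
      simp only [flat, List.nodup_cons] at hn ⊢; tauto
    simp only [flat, List.nodup_cons, List.mem_cons, not_or] at hn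
    have hs : sw μ u p.1 p.2 = p.2 := by
      have := sw_right (w := p.1) hu
      rwa [h2] at this
    have hLs : Alt G (sw μ u p.1) p.2 L := by
      refine alt_congr h4 fun v hv => sw_other hinv hu ?_ ?_ ?_
      · rintro rfl; exact hn.1.2.2 hv
      · rintro rfl; exact hn.2.1.2 hv
      · rw [h2]; rintro rfl; exact hn.2.2.1 hv
    obtain ⟨μ', h5, h6, h7, h8⟩ := ih hsm hs hLs hn'
    refine ⟨μ', h5, h6, ?_, ?_⟩
    · simp only [revp, endp]
      rw [alt_append]
      refine ⟨h7, ?_⟩
      rw [endp_revp]
      have hp1 : p.1 ∉ p.2 :: flat L := by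
        simp only [List.mem_cons, not_or]; exact ⟨h3, hn.2.1.2⟩
      refine ⟨?_, ?_, hwu, trivial⟩
      · have := hμ.1.2 p.1 (by rw [h2]; exact h3.symm)
        rw [h2] at this; exact this.symm
      · rw [h8 _ hp1, sw_mid hwu hmw]
    · intro v hv
      simp only [flat, List.mem_cons, not_or] at hv
      rw [h8 v (by simp only [List.mem_cons, not_or]; exact ⟨hv.2.2.1, hv.2.2.2⟩)]
      exact sw_other hinv hu hv.1 hv.2.1 (by rw [h2]; exact hv.2.2.1)

/-- Any vertex missed by some maximum matching is reached from an uncovered vertex of any other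
maximum matching. -/
theorem reachable {G : SimpleGraph V} {μ : V → V} (hμ : IsMax G μ) (n : ℕ) :
    ∀ (ν : V → V) (y : V), IsMax G ν → ν y = y → (univ.filter fun v => μ v ≠ ν v).card = n →
    ∃ (z : V) (P : List (V × V)), μ z = z ∧ Alt G μ z P ∧ endp z P = y ∧ (z :: flat P).Nodup ∧
      ∀ v ∈ z :: flat P, v = y ∨ μ v ≠ ν v := by
  induction n using Nat.strong_induction_on with
  | _ n ih =>
    intro ν y hν hy hn
    by_cases hyμ : μ y = y
    · exact ⟨y, [], hyμ, trivial, rfl, by simp [flat], by simp [flat]⟩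
    · have hinv := hμ.1.1
      have hadj : G.Adj y (μ y) := hμ.1.2 y hyμ
      have hx1 := max_covers hν hy hadj
      have hy1 : ν (μ y) ≠ y := by
        intro h
        have := hν.1.1 (μ y)
        rw [h, hy] at this
        exact hyμ this.symm
      have hsl := sw_left hν.1.1 (u := y) (w := μ y) hyμ hx1
      have hsm := sw_mid (μ := ν) (u := y) (w := μ y) hyμ hx1
      have hsr := sw_right (μ := ν) (u := y) (w := μ y) hy
      have hso : ∀ v, v ≠ y → v ≠ μ y → v ≠ ν (μ y) → sw ν y (μ y) v = ν v :=
        fun v h1 h2 h3 => sw_other hν.1.1 hy h1 h2 h3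
      have hlt : (univ.filter fun v => μ v ≠ sw ν y (μ y) v).card < n := by
        rw [← hn]
        apply Finset.card_lt_card
        rw [Finset.ssubset_iff_of_subset]
        · refine ⟨y, ?_, ?_⟩
          · simp [hy, hyμ]
          · simp [hsl]
        · intro v hv
          simp only [mem_filter, mem_univ, true_and] at hv ⊢
          by_cases h1 : v = y
          · rw [h1, hy]; exact hyμ
          · by_cases h2 : v = μ y
            · rw [h2, hinv]; exact hy1.symm
            · by_cases h3 : v = ν (μ y)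
              · rw [h3, hν.1.1]
                intro h
                have := congrArg μ h
                rw [hinv, hinv] at this
                exact hy1 this
              · rwa [hso v h1 h2 h3] at hv
      obtain ⟨z, P, h1, h2, h3, h4, h5⟩ := ih _ hlt _ _ (sw_max hν hy hadj) hsr rfl
      have hyP : y ∉ z :: flat P := by
        intro h
        rcases h5 y h with h6 | h6
        · exact hy1 h6.symm
        · exact h6 hsl.symm
      have hxP : μ y ∉ z :: flat P := by
        intro h
        rcases h5 _ h with h6 | h6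
        · exact hx1 h6.symm
        · rw [hinv, hsm] at h6; exact h6 rfl
      refine ⟨z, P ++ [(μ y, y)], h1, ?_, ?_, ?_, ?_⟩
      · rw [alt_append]
        refine ⟨h2, ?_⟩
        rw [h3]
        have := hν.1.2 (μ y) hx1
        exact ⟨this.symm, hinv y, hyμ, trivial⟩
      · rw [endp_append]; rfl
      · rw [flat_append, ← List.cons_append, List.nodup_append]
        refine ⟨h4, by simp [flat, hyμ], ?_⟩
        intro a ha b hb
        simp only [flat, List.mem_cons, List.not_mem_nil, or_false] at hb
        rcases hb with rfl | rfl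
        · rintro rfl; exact hxP ha
        · rintro rfl; exact hyP ha
      · intro v hv
        rw [flat_append, ← List.cons_append, List.mem_append] at hv
        rcases hv with hv | hv
        · right
          by_cases h3' : v = ν (μ y)
          · rw [h3', hν.1.1]
            intro h
            have := congrArg μ h
            rw [hinv, hinv] at this
            exact hy1 this
          · have h1' : v ≠ y := by rintro rfl; exact hyP hv
            have h2' : v ≠ μ y := by rintro rfl; exact hxP hv
            rcases h5 v hv with h6 | h6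
            · exact absurd h6 h3'
            · rwa [hso v h1' h2' h3'] at h6
        · simp only [flat, List.mem_cons, List.not_mem_nil, or_false] at hv
          rcases hv with rfl | rfl
          · right; rw [hinv]; exact hy1.symm
          · left; rfl

/-! ### The edges of a cycle -/

theorem cycEdges_rotate (l : List V) (k : ℕ) : cycEdges (l.rotate k) = cycEdges l := by
  have h : (l.rotate k).zip ((l.rotate k).rotate 1) = (l.zip (l.rotate 1)).rotate k := by
    rw [List.rotate_rotate, Nat.add_comm, ← List.rotate_rotate]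
    exact (List.zipWith_rotate_distrib _ _ _ _ (by simp)).symm
  unfold cycEdges
  ext e
  rw [h]
  simp only [List.mem_toFinset, List.mem_map, List.mem_rotate]

theorem mem_cycEdges (l : List V) (v : V) : (∃ e ∈ cycEdges l, v ∈ e) ↔ v ∈ l := by
  constructor
  · rintro ⟨e, he, hv⟩
    simp only [cycEdges, List.mem_toFinset, List.mem_map] at he
    obtain ⟨p, hp, rfl⟩ := he
    have := List.of_mem_zip (show (p.1, p.2) ∈ _ from hp)
    rw [List.mem_rotate] at this
    rw [Sym2.mem_iff] at hv
    rcases hv with rfl | rfl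
    · exact this.1
    · exact this.2
  · intro hv
    have h : (l.zip (l.rotate 1)).map Prod.fst = l := List.map_fst_zip (by simp)
    rw [← h, List.mem_map] at hv
    obtain ⟨p, hp, rfl⟩ := hv
    refine ⟨s(p.1, p.2), ?_, by simp⟩
    simp only [cycEdges, List.mem_toFinset, List.mem_map]
    exact ⟨p, hp, rfl⟩

theorem zip_adj {G : SimpleGraph V} {μ : V → V} (hμ : IsMatch G μ) {x y : V}
    {L : List (V × V)} (h : Alt G μ x L) (hy : G.Adj (endp x L) y) :
    ∀ p ∈ (x :: flat L).zip (flat L ++ [y]), G.Adj p.1 p.2 := by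
  induction L generalizing x with
  | nil => simpa [flat, endp] using hy
  | cons q L ih =>
    obtain ⟨h1, h2, h3, h4⟩ := h
    intro p hp
    simp only [flat, List.cons_append, List.zip_cons_cons, List.mem_cons] at hp
    rcases hp with rfl | rfl | hp
    · exact h1
    · have := hμ.2 q.1 (by rw [h2]; exact h3.symm)
      rwa [h2] at this
    · exact ih h4 hy p hp

theorem isOddCycle_blossom {G : SimpleGraph V} {μ : V → V} (hμ : IsMatch G μ) {b : V}
    {B : List (V × V)} (h : Alt G μ b B) (hB : B ≠ []) (hc : G.Adj (endp b B) b)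
    (hn : (b :: flat B).Nodup) : IsOddCycle G (cycEdges (b :: flat B)) := by
  refine ⟨b :: flat B, hn, ?_, ?_, ?_, rfl⟩
  · have : 0 < B.length := List.length_pos_of_ne_nil hB
    rw [List.length_cons, length_flat]; omega
  · rw [List.length_cons, length_flat]; exact ⟨B.length, rfl⟩
  · intro e he
    simp only [cycEdges, List.mem_toFinset, List.mem_map] at he
    obtain ⟨p, hp, rfl⟩ := he
    have : (b :: flat B).rotate 1 = flat B ++ [b] := by simp
    rw [this] at hp
    exact zip_adj hμ h hc p hp

/-- A blossom at an uncovered base, as a predicate on the matching, the base and the list. -/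
structure IsRose (G : SimpleGraph V) (μ : V → V) (b : V) (B : List (V × V)) : Prop where
  max : IsMax G μ
  root : μ b = b
  blossom : Alt G μ b B
  ne : B ≠ []
  closed : G.Adj (endp b B) b
  nodup : (b :: flat B).Nodup

theorem rot_step {G : SimpleGraph V} {μ : V → V} {b : V} {B : List (V × V)}
    (h : IsRose G μ b B) : ∃ (μ' : V → V) (b' : V) (B' : List (V × V)), IsRose G μ' b' B' ∧
      b' :: flat B' = (b :: flat B).rotate 2 ∧ ∀ v, v ∉ b :: flat B → μ' v = μ v := by
  obtain ⟨hμ, hb, hB, hne, hcl, hn⟩ := h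
  cases B with
  | nil => exact absurd rfl hne
  | cons p B =>
    obtain ⟨h1, h2, h3, h4⟩ := hB
    have hinv := hμ.1.1
    have hmw := max_covers hμ hb h1
    have hpb : p.1 ≠ b := h1.ne'
    have hlist : p.2 :: flat (B ++ [(b, p.1)]) = (b :: flat (p :: B)).rotate 2 := by
      simp [flat, flat_append, List.rotate_cons_succ]
    have hn2 : (p.2 :: flat (B ++ [(b, p.1)])).Nodup := by
      rw [hlist]; exact List.nodup_rotate.mpr hn
    simp only [flat, List.nodup_cons, List.mem_cons, not_or] at hn
    refine ⟨sw μ b p.1, p.2, B ++ [(b, p.1)], ⟨sw_max hμ hb h1, ?_, ?_, by simp, ?_, hn2⟩,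
      hlist, ?_⟩
    · have := sw_right (w := p.1) hb
      rwa [h2] at this
    · rw [alt_append]
      refine ⟨alt_congr h4 fun v hv => sw_other hinv hb ?_ ?_ ?_, ?_⟩
      · rintro rfl; exact hn.1.2.2 hv
      · rintro rfl; exact hn.2.1.2 hv
      · rw [h2]; rintro rfl; exact hn.2.2.1 hv
      · exact ⟨hcl, sw_left hinv hpb hmw, hpb.symm, trivial⟩
    · rw [endp_append]
      have := hμ.1.2 p.1 (by rw [h2]; exact h3.symm)
      rw [h2] at this
      exact this
    · intro v hv
      simp only [flat, List.mem_cons, not_or] at hv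
      exact sw_other hinv hb hv.1 hv.2.1 (by rw [h2]; exact hv.2.2.1)

theorem rot_iter {G : SimpleGraph V} {μ : V → V} {b : V} {B : List (V × V)}
    (h : IsRose G μ b B) (k : ℕ) :
    ∃ (μ' : V → V) (b' : V) (B' : List (V × V)), IsRose G μ' b' B' ∧
      b' :: flat B' = (b :: flat B).rotate (2 * k) ∧ ∀ v, v ∉ b :: flat B → μ' v = μ v := by
  induction k with
  | zero => exact ⟨μ, b, B, h, by simp, fun _ _ => rfl⟩
  | succ k ih =>
    obtain ⟨μ1, b1, B1, h1, h2, h3⟩ := ih
    obtain ⟨μ2, b2, B2, h4, h5, h6⟩ := rot_step h1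
    refine ⟨μ2, b2, B2, h4, ?_, ?_⟩
    · rw [h5, h2, List.rotate_rotate]; rfl
    · intro v hv
      rw [h6 v, h3 v hv]
      rw [h2, List.mem_rotate]; exact hv

theorem rot_to {G : SimpleGraph V} {μ : V → V} {b : V} {B : List (V × V)}
    (h : IsRose G μ b B) {c : V} (hc : c ∈ b :: flat B) :
    ∃ (μ' : V → V) (B' : List (V × V)), IsRose G μ' c B' ∧
      cycEdges (c :: flat B') = cycEdges (b :: flat B) ∧
      (∀ v, v ∈ c :: flat B' ↔ v ∈ b :: flat B) ∧ ∀ v, v ∉ b :: flat B → μ' v = μ v := by
  obtain ⟨j, hj, hjc⟩ := List.getElem_of_mem hc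
  have hodd : ∃ k, (b :: flat B).rotate (2 * k) = (b :: flat B).rotate j := by
    rcases Nat.even_or_odd j with ⟨k, hk⟩ | ⟨k, hk⟩
    · exact ⟨k, by rw [hk, two_mul]⟩
    · refine ⟨k + B.length + 1, ?_⟩
      have hlen : (b :: flat B).length = 2 * B.length + 1 := by
        rw [List.length_cons, length_flat]
      have : 2 * (k + B.length + 1) = j + (b :: flat B).length := by rw [hlen]; omega
      rw [this, ← List.rotate_mod, Nat.add_mod_right, List.rotate_mod]
  obtain ⟨k, hk⟩ := hodd
  obtain ⟨μ', b', B', h1, h2, h3⟩ := rot_iter h k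
  rw [hk] at h2
  have hb' : b' = c := by
    have h5 : (b' :: flat B')[0]'(by simp) = c := by
      simp only [h2]
      rw [List.getElem_rotate]
      simp only [Nat.zero_add, Nat.mod_eq_of_lt hj]
      exact hjc
    simpa using h5
  subst hb'
  refine ⟨μ', B', h1, ?_, ?_, h3⟩
  · rw [h2, cycEdges_rotate]
  · intro v; rw [h2, List.mem_rotate]

/-! ### Flowers with a given blossom -/

/-- A flower with blossom `E`. -/
def Fl (G : SimpleGraph V) (E : Finset (Sym2 V)) (μ : V → V) (u : V) (L B : List (V × V)) :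
    Prop := IsFlower G μ u L B ∧ cycEdges (endp u L :: flat B) = E

/-- The vertices of the cycle `E`. -/
def Cset (E : Finset (Sym2 V)) : Set V := {v | ∃ e ∈ E, v ∈ e}

/-- The uncovered ends of the stems of positive length. -/
def Sset (G : SimpleGraph V) (E : Finset (Sym2 V)) : Set V :=
  {u | ∃ (μ : V → V) (L B : List (V × V)), Fl G E μ u L B ∧ L ≠ []}

/-- The vertices next to the uncovered end of a stem. -/
def Aset (G : SimpleGraph V) (E : Finset (Sym2 V)) : Set V :=
  {a | ∃ (μ : V → V) (u s : V) (L B : List (V × V)), Fl G E μ u ((a, s) :: L) B}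

/-- The vertices left uncovered by some maximum matching. -/
def Dset (G : SimpleGraph V) : Set V := {v | ∃ μ : V → V, IsMax G μ ∧ μ v = v}

theorem Fl.mem_C {G : SimpleGraph V} {E : Finset (Sym2 V)} {μ : V → V} {u : V}
    {L B : List (V × V)} (h : Fl G E μ u L B) (v : V) : v ∈ Cset E ↔ v ∈ endp u L :: flat B := by
  rw [← h.2]; exact mem_cycEdges _ v

theorem Fl.isOddCycle {G : SimpleGraph V} {E : Finset (Sym2 V)} {μ : V → V} {u : V}
    {L B : List (V × V)} (h : Fl G E μ u L B) : IsOddCycle G E := by
  obtain ⟨⟨h1, h2, h3, h4, h5, h6, h7⟩, h8⟩ := h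
  rw [← h8]
  refine isOddCycle_blossom h1.1 h4 h5 h6 ?_
  have hb := endp_mem u L
  rw [← List.cons_append, List.nodup_append] at h7
  rw [List.nodup_cons]
  refine ⟨fun h => h7.2.2 _ hb _ h rfl, h7.2.1⟩

theorem Fl.retract {G : SimpleGraph V} {E : Finset (Sym2 V)} {μ : V → V} {u : V}
    {L1 L2 B : List (V × V)} (h : Fl G E μ u (L1 ++ L2) B) :
    ∃ μ' : V → V, Fl G E μ' (endp u L1) L2 B ∧ Alt G μ' (endp u L1) (revp u L1) ∧
      ∀ v, v ∉ u :: flat L1 → μ' v = μ v := by
  obtain ⟨⟨h1, h2, h3, h4, h5, h6, h7⟩, h8⟩ := h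
  rw [alt_append] at h3
  rw [endp_append] at h4 h6 h8
  rw [flat_append, List.append_assoc] at h7
  have h7' := h7
  rw [← List.cons_append, List.nodup_append] at h7
  obtain ⟨n1, n2, n3⟩ := h7
  obtain ⟨μ', m1, m2, m3, m4⟩ := shift h1 h2 h3.1 n1
  have hnot : ∀ v, v ∈ flat L2 ++ flat B → v ∉ u :: flat L1 := fun v hv hv' => n3 v hv' v hv rfl
  refine ⟨μ', ⟨⟨m1, m2, ?_, ?_, h5, h6, ?_⟩, h8⟩, m3, m4⟩
  · exact alt_congr h3.2 fun v hv => m4 v (hnot v (List.mem_append_left _ hv))
  · exact alt_congr h4 fun v hv => m4 v (hnot v (List.mem_append_right _ hv))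
  · rw [List.nodup_cons]
    exact ⟨fun hv => hnot _ hv (endp_mem u L1), n2⟩

theorem Fl.extend {G : SimpleGraph V} {E : Finset (Sym2 V)} {μ : V → V} {u : V}
    {L B K : List (V × V)} (h : Fl G E μ u L B) (hK : Alt G μ u K) (hn : (u :: flat K).Nodup)
    (hd : ∀ v ∈ flat K, v ∉ flat L ++ flat B) :
    ∃ μ' : V → V, Fl G E μ' (endp u K) (revp u K ++ L) B ∧
      ∀ v, v ∉ u :: flat K → μ' v = μ v := by
  obtain ⟨⟨h1, h2, h3, h4, h5, h6, h7⟩, h8⟩ := h
  obtain ⟨μ', m1, m2, m3, m4⟩ := shift h1 h2 hK hn
  rw [List.nodup_cons] at h7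
  have hnot : ∀ v, v ∈ flat L ++ flat B → v ∉ u :: flat K := by
    intro v hv hv'
    rw [List.mem_cons] at hv'
    rcases hv' with rfl | hv'
    · exact h7.1 hv
    · exact hd v hv' hv
  have e1 : endp (endp u K) (revp u K ++ L) = endp u L := by rw [endp_append, endp_revp]
  refine ⟨μ', ⟨⟨m1, m2, ?_, ?_, h5, ?_, ?_⟩, ?_⟩, m4⟩
  · rw [alt_append, endp_revp]
    exact ⟨m3, alt_congr h3 fun v hv => m4 v (hnot v (List.mem_append_left _ hv))⟩
  · rw [e1]
    exact alt_congr h4 fun v hv => m4 v (hnot v (List.mem_append_right _ hv))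
  · rw [e1]; exact h6
  · rw [flat_append, List.append_assoc, ← List.cons_append, List.nodup_append]
    refine ⟨(revp_perm u K).nodup_iff.mpr hn, h7.2, ?_⟩
    intro a ha b hb hab
    subst hab
    rw [mem_revp] at ha
    exact hnot a hb ha
  · rw [e1]; exact h8

theorem Fl.rose {G : SimpleGraph V} {E : Finset (Sym2 V)} {μ : V → V} {b : V}
    {B : List (V × V)} (h : Fl G E μ b [] B) : IsRose G μ b B := by
  obtain ⟨⟨h1, h2, h3, h4, h5, h6, h7⟩, h8⟩ := h
  exact ⟨h1, h2, h4, h5, h6, by simpa [flat] using h7⟩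

theorem IsRose.fl {G : SimpleGraph V} {μ : V → V} {b : V}
    {B : List (V × V)} (h : IsRose G μ b B) : Fl G (cycEdges (b :: flat B)) μ b [] B := by
  obtain ⟨h1, h2, h3, h4, h5, h6⟩ := h
  exact ⟨⟨h1, h2, trivial, h3, h4, h5, by simpa [flat] using h6⟩, rfl⟩

/-- Every vertex of the blossom can be made the uncovered base. -/
theorem Fl.turn {G : SimpleGraph V} {E : Finset (Sym2 V)} {μ : V → V} {b c : V}
    {B : List (V × V)} (h : Fl G E μ b [] B) (hc : c ∈ Cset E) :
    ∃ (μ' : V → V) (B' : List (V × V)), Fl G E μ' c [] B' ∧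
      ∀ v, v ∉ Cset E → μ' v = μ v := by
  have hc' := (h.mem_C c).mp hc
  obtain ⟨μ', B', h1, h2, h3, h4⟩ := rot_to h.rose hc'
  refine ⟨μ', B', ?_, ?_⟩
  · have := h1.fl
    rw [h2] at this
    have h5 : cycEdges (b :: flat B) = E := h.2
    rwa [h5] at this
  · intro v hv
    exact h4 v (fun h5 => hv ((h.mem_C v).mpr h5))

theorem Fl.base {G : SimpleGraph V} {E : Finset (Sym2 V)} {μ : V → V} {u : V}
    {L B : List (V × V)} (h : Fl G E μ u L B) :
    ∃ μ' : V → V, Fl G E μ' (endp u L) [] B ∧ Alt G μ' (endp u L) (revp u L) ∧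
      ∀ v, v ∉ u :: flat L → μ' v = μ v := by
  have h' : Fl G E μ u (L ++ []) B := by rwa [List.append_nil]
  exact h'.retract

theorem exists_fl {G : SimpleGraph V} {E : Finset (Sym2 V)} (h : (reach G E).Nonempty) {c : V}
    (hc : c ∈ Cset E) : ∃ (μ : V → V) (B : List (V × V)), Fl G E μ c [] B := by
  obtain ⟨v, μ, u, L, B, h1, h2, h3⟩ := h
  obtain ⟨μ', h4, _, _⟩ := Fl.base (show Fl G E μ u L B from ⟨h1, h2⟩)
  obtain ⟨μ'', B', h5, _⟩ := h4.turn hc
  exact ⟨μ'', B', h5⟩

theorem Fl.reach_mem {G : SimpleGraph V} {E : Finset (Sym2 V)} {μ : V → V} {u : V}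
    {L B : List (V × V)} (h : Fl G E μ u L B) {v : V} (hv : v ∈ u :: (flat L ++ flat B)) :
    v ∈ reach G E := ⟨μ, u, L, B, h.1, h.2, hv⟩

theorem C_sub_reach {G : SimpleGraph V} {E : Finset (Sym2 V)} (h : (reach G E).Nonempty) {c : V}
    (hc : c ∈ Cset E) : c ∈ reach G E := by
  obtain ⟨μ, B, h1⟩ := exists_fl h hc
  exact h1.reach_mem (by simp)

theorem C_sub_D {G : SimpleGraph V} {E : Finset (Sym2 V)} (h : (reach G E).Nonempty) {c : V}
    (hc : c ∈ Cset E) : c ∈ Dset G := by
  obtain ⟨μ, B, h1⟩ := exists_fl h hc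
  exact ⟨μ, h1.1.max, h1.1.root⟩

theorem S_sub_D {G : SimpleGraph V} {E : Finset (Sym2 V)} {u : V}
    (h : u ∈ Sset G E) : u ∈ Dset G := by
  obtain ⟨μ, L, B, h1, _⟩ := h
  exact ⟨μ, h1.1.max, h1.1.root⟩

theorem S_sub_reach {G : SimpleGraph V} {E : Finset (Sym2 V)} {u : V}
    (h : u ∈ Sset G E) : u ∈ reach G E := by
  obtain ⟨μ, L, B, h1, _⟩ := h
  exact h1.reach_mem (by simp)

theorem A_sub_reach {G : SimpleGraph V} {E : Finset (Sym2 V)} {a : V}
    (h : a ∈ Aset G E) : a ∈ reach G E := by
  obtain ⟨μ, u, s, L, B, h1⟩ := h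
  exact h1.reach_mem (by simp [flat])

theorem mem_flat_split {L : List (V × V)} {v : V} (h : v ∈ flat L) :
    ∃ (L1 : List (V × V)) (p : V × V) (L2 : List (V × V)), L = L1 ++ p :: L2 ∧
      (v = p.1 ∨ v = p.2) := by
  induction L with
  | nil => simp [flat] at h
  | cons q L ih =>
    simp only [flat, List.mem_cons] at h
    rcases h with h | h | h
    · exact ⟨[], q, L, rfl, Or.inl h⟩
    · exact ⟨[], q, L, rfl, Or.inr h⟩
    · obtain ⟨L1, p, L2, h1, h2⟩ := ih h
      exact ⟨q :: L1, p, L2, by rw [h1]; rfl, h2⟩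

/-- Classification of the vertices of a flower. -/
theorem Fl.classify {G : SimpleGraph V} {E : Finset (Sym2 V)} {μ : V → V} {u : V}
    {L B : List (V × V)} (h : Fl G E μ u L B) {v : V} (hv : v ∈ u :: (flat L ++ flat B)) :
    v ∈ Cset E ∨ v ∈ Sset G E ∨ v ∈ Aset G E := by
  rw [List.mem_cons, List.mem_append] at hv
  rcases hv with rfl | hv | hv
  · by_cases hL : L = []
    · subst hL
      left
      rw [h.mem_C]; simp [endp]
    · right; left
      exact ⟨μ, L, B, h, hL⟩
  · obtain ⟨L1, p, L2, h1, h2⟩ := mem_flat_split hv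
    subst h1
    rcases h2 with rfl | rfl
    · obtain ⟨μ', h3, _, _⟩ := h.retract
      right; right
      exact ⟨μ', _, p.2, L2, B, h3⟩
    · have h' : Fl G E μ u ((L1 ++ [p]) ++ L2) B := by simpa using h
      obtain ⟨μ', h3, _, _⟩ := h'.retract
      have he : endp u (L1 ++ [p]) = p.2 := by rw [endp_append]; rfl
      rw [he] at h3
      by_cases hL : L2 = []
      · subst hL
        left
        rw [h3.mem_C]; simp [endp]
      · right; left
        exact ⟨μ', L2, B, h3, hL⟩
  · left
    rw [h.mem_C]; exact List.mem_cons_of_mem _ hv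

theorem reach_classify {G : SimpleGraph V} {E : Finset (Sym2 V)} {v : V} (hv : v ∈ reach G E) :
    v ∈ Cset E ∨ v ∈ Sset G E ∨ v ∈ Aset G E := by
  obtain ⟨μ, u, L, B, h1, h2, h3⟩ := hv
  exact Fl.classify (show Fl G E μ u L B from ⟨h1, h2⟩) h3

/-- Two adjacent vertices, each missed by some maximum matching, lie on a common blossom. -/
theorem adj_D {G : SimpleGraph V} {u v : V} (hu : u ∈ Dset G) (hv : v ∈ Dset G)
    (huv : G.Adj u v) : ∃ (E : Finset (Sym2 V)) (μ : V → V) (P : List (V × V)),
      Fl G E μ v [] P ∧ u ∈ Cset E ∧ v ∈ Cset E := by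
  obtain ⟨ν, hν, hνu⟩ := hu
  obtain ⟨μ, hμ, hμv⟩ := hv
  obtain ⟨z, P, h1, h2, h3, h4, _⟩ := reachable hμ _ ν u hν hνu rfl
  by_cases hz : v = z
  · subst hz
    have hP : P ≠ [] := by
      rintro rfl
      simp only [endp] at h3
      exact huv.ne h3.symm
    have hf : Fl G (cycEdges (v :: flat P)) μ v [] P :=
      IsRose.fl ⟨hμ, hμv, h2, hP, by rw [h3]; exact huv, h4⟩
    refine ⟨_, μ, P, hf, ?_, ?_⟩
    · rw [hf.mem_C, ← h3]; exact endp_mem v P
    · rw [hf.mem_C]; simp [endp]
  · exfalso
    have hvP : v ∉ z :: flat P := by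
      intro h
      rw [List.mem_cons] at h
      rcases h with h | h
      · exact hz h
      · exact (alt_partner hμ.1.1 h2 h).2 hμv
    obtain ⟨μ', m1, m2, _, m4⟩ := shift hμ h1 h2 h4
    rw [h3] at m2
    exact max_covers m1 m2 huv (by rw [m4 v hvP, hμv])

theorem endp_mem_flat {u : V} {L : List (V × V)} (h : L ≠ []) : endp u L ∈ flat L := by
  cases L with
  | nil => exact absurd rfl h
  | cons p L =>
    have := endp_mem p.2 L
    simp only [endp, flat, List.mem_cons] at this ⊢
    tauto

theorem S_not_C {G : SimpleGraph V} {E : Finset (Sym2 V)} {u : V}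
    (h : u ∈ Sset G E) : u ∉ Cset E := by
  obtain ⟨μ, L, B, h1, hL⟩ := h
  rw [h1.mem_C]
  have h2 := h1.1.nodup
  rw [List.nodup_cons, List.mem_append, not_or] at h2
  rw [List.mem_cons, not_or]
  exact ⟨fun h => h2.1.1 (h ▸ endp_mem_flat hL), h2.1.2⟩

/-! ### Consequences of `R`-disjointness -/

theorem key {G : SimpleGraph V} (h : RDisjoint G) {E : Finset (Sym2 V)} (hE : IsOddCycle G E)
    {u v : V} (hur : u ∈ reach G E) (hu : u ∈ Dset G) (hv : v ∈ Dset G) (huv : G.Adj u v) :
    u ∈ Cset E ∧ v ∈ Cset E := by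
  obtain ⟨E', μ, P, hf, h1, h2⟩ := adj_D hu hv huv
  have hE' := hf.isOddCycle
  have hEE : E = E' := by
    by_contra hne
    have hd := h.disjoint E E' hE hE' hne
    exact Set.disjoint_left.mp hd hur (C_sub_reach ⟨v, hf.reach_mem (by simp)⟩ h1)
  subst hEE
  exact ⟨h1, h2⟩

theorem A_not_D {G : SimpleGraph V} (h : RDisjoint G) {E : Finset (Sym2 V)} {a : V}
    (ha : a ∈ Aset G E) : a ∉ Dset G := by
  intro haD
  obtain ⟨μ, u, s, L, B, h1⟩ := ha
  have hu : u ∈ Sset G E := ⟨μ, _, B, h1, by simp⟩
  have hadj : G.Adj u a := h1.1.stem.1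
  exact S_not_C hu (key h h1.isOddCycle (S_sub_reach hu) (S_sub_D hu) haD hadj).1

theorem nbr_ext {G : SimpleGraph V} {E : Finset (Sym2 V)} {μ : V → V} {u w : V}
    {L B : List (V × V)} (h : Fl G E μ u L B) (huw : G.Adj u w)
    (hw : w ∉ u :: (flat L ++ flat B)) : w ∈ Aset G E := by
  have hmw := max_covers h.1.max h.1.root huw
  have hinv := h.1.max.1.1
  rw [List.mem_cons, List.mem_append, not_or, not_or] at hw
  have h1 : μ w ≠ u := by
    intro h2
    have := hinv w
    rw [h2, h.1.root] at this
    exact hw.1 this.symm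
  have h2 : μ w ∉ flat L := fun h3 => hw.2.1 (by
    have := (alt_partner hinv h.1.stem h3).1
    rwa [hinv] at this)
  have h3 : μ w ∉ flat B := fun h3 => hw.2.2 (by
    have := (alt_partner hinv h.1.blossom h3).1
    rwa [hinv] at this)
  have hK : Alt G μ u [(w, μ w)] := ⟨huw, rfl, hmw.symm, trivial⟩
  obtain ⟨μ', h4, _⟩ := h.extend hK
    (by simp only [flat, List.nodup_cons, List.mem_cons, List.not_mem_nil, or_false, not_or,
          not_false_eq_true, List.nodup_nil, and_true]
        exact ⟨⟨fun h => hw.1 h.symm, h1.symm⟩, hmw.symm⟩)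
    (by
      intro v hv
      simp only [flat, List.mem_cons, List.not_mem_nil, or_false] at hv
      rw [List.mem_append, not_or]
      rcases hv with rfl | rfl
      · exact hw.2
      · exact ⟨h2, h3⟩)
  exact ⟨μ', _, u, L, B, h4⟩

theorem nbr_S {G : SimpleGraph V} (h : RDisjoint G) {E : Finset (Sym2 V)} {u w : V}
    (hu : u ∈ Sset G E) (huw : G.Adj u w) : w ∈ Aset G E := by
  have hu' := hu
  obtain ⟨μ, L, B, h1, hL⟩ := hu
  by_cases hw : w ∈ u :: (flat L ++ flat B)
  · rcases h1.classify hw with hc | hs | ha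
    · exact absurd (key h h1.isOddCycle (S_sub_reach hu') (S_sub_D hu')
        (C_sub_D ⟨w, h1.reach_mem hw⟩ hc) huw).1 (S_not_C hu')
    · exact absurd (key h h1.isOddCycle (S_sub_reach hu') (S_sub_D hu')
        (S_sub_D hs) huw).1 (S_not_C hu')
    · exact ha
  · exact nbr_ext h1 huw hw

theorem nbr_C {G : SimpleGraph V} {E : Finset (Sym2 V)} (hE : (reach G E).Nonempty) {c w : V}
    (hc : c ∈ Cset E) (hcw : G.Adj c w) (hw : w ∉ Cset E) : w ∈ Aset G E := by
  obtain ⟨μ, B, h1⟩ := exists_fl hE hc
  refine nbr_ext h1 hcw ?_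
  intro h2
  apply hw
  rw [h1.mem_C]
  simpa [flat, endp] using h2

theorem prefix_D {G : SimpleGraph V} {μ : V → V} (hμ : IsMax G μ) {z : V} (hz : μ z = z)
    {P1 P2 : List (V × V)} (hP : Alt G μ z (P1 ++ P2)) (hn : (z :: flat (P1 ++ P2)).Nodup) :
    endp z P1 ∈ Dset G := by
  rw [alt_append] at hP
  rw [flat_append, ← List.cons_append, List.nodup_append] at hn
  obtain ⟨μ', m1, m2, _, _⟩ := shift hμ hz hP.1 hn.1
  exact ⟨μ', m1, m2⟩

theorem partner_A {G : SimpleGraph V} (h : RDisjoint G) {E : Finset (Sym2 V)} {a : V}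
    (ha : a ∈ Aset G E) {M : V → V} (hM : IsMax G M) : M a ∈ Dset G := by
  have haD := A_not_D h ha
  obtain ⟨μ, u, s, L, B, h1⟩ := ha
  have hadj : G.Adj u a := h1.1.stem.1
  obtain ⟨z, P, p1, p2, p3, p4, _⟩ := reachable hM _ μ u h1.1.max h1.1.root rfl
  by_cases haP : a ∈ z :: flat P
  · rw [List.mem_cons] at haP
    rcases haP with rfl | haP
    · exact absurd ⟨M, hM, p1⟩ haD
    · obtain ⟨P1, p, P2, e1, e2⟩ := mem_flat_split haP
      subst e1
      have hsplit : P1 ++ p :: P2 = (P1 ++ [p]) ++ P2 := by simp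
      have he : endp z (P1 ++ [p]) = p.2 := by rw [endp_append]; rfl
      have hpD : p.2 ∈ Dset G := by
        rw [← he]
        rw [hsplit] at p2 p4
        exact prefix_D hM p1 p2 p4
      rcases e2 with rfl | rfl
      · rw [alt_append] at p2
        rw [p2.2.2.1]; exact hpD
      · exact absurd hpD haD
  · obtain ⟨μ', m1, m2, _, m4⟩ := shift hM p1 p2 p4
    rw [p3] at m2
    refine ⟨sw μ' u a, sw_max m1 m2 hadj, ?_⟩
    rw [← m4 a haP]
    exact sw_right m2

/-- The last pair of a list that meets `F`. -/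
theorem last_in (F : List V) (P : List (V × V)) :
    (∀ v ∈ flat P, v ∉ F) ∨ ∃ (P1 : List (V × V)) (p : V × V) (P2 : List (V × V)),
      P = P1 ++ p :: P2 ∧ (p.1 ∈ F ∨ p.2 ∈ F) ∧ ∀ v ∈ flat P2, v ∉ F := by
  induction P with
  | nil => left; simp [flat]
  | cons q P ih =>
    rcases ih with ih | ⟨P1, p, P2, h1, h2, h3⟩
    · by_cases hq : q.1 ∈ F ∨ q.2 ∈ F
      · exact Or.inr ⟨[], q, P, rfl, hq, ih⟩
      · left
        intro v hv
        rw [not_or] at hq
        simp only [flat, List.mem_cons] at hv
        rcases hv with rfl | rfl | hv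
        · exact hq.1
        · exact hq.2
        · exact ih v hv
    · right
      exact ⟨q :: P1, p, P2, by rw [h1]; rfl, h2, h3⟩

/-- Rerouting a flower so that its uncovered end is a given vertex `q` of it. -/
theorem reroute {G : SimpleGraph V} (h : RDisjoint G) {E : Finset (Sym2 V)} {μ : V → V}
    {u a s : V} {L B : List (V × V)} (h1 : Fl G E μ u ((a, s) :: L) B) {q : V}
    (hq : q ∈ flat ((a, s) :: L) ++ flat B) (hqD : q ∈ Dset G) :
    ∃ (μ' : V → V) (L2 B' : List (V × V)), Fl G E μ' q L2 B' ∧ μ' a = u ∧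
      (∀ v, v ∉ u :: (flat ((a, s) :: L) ++ flat B) → μ' v = μ v) ∧
      ∀ v ∈ flat L2 ++ flat B', v ∈ u :: (flat ((a, s) :: L) ++ flat B) ∧ v ≠ a ∧ v ≠ u := by
  have haA : a ∈ Aset G E := ⟨μ, u, s, L, B, h1⟩
  have haD := A_not_D h haA
  have hnd := h1.1.nodup
  have hre : (reach G E).Nonempty := ⟨u, h1.reach_mem (by simp)⟩
  have hCF : ∀ v, v ∈ Cset E → v ∈ u :: (flat ((a, s) :: L) ++ flat B) := by
    intro v hv
    rw [h1.mem_C, List.mem_cons] at hv
    rcases hv with rfl | hv
    · exact List.mem_cons_of_mem _ (List.mem_append_left _ (endp_mem_flat (by simp)))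
    · exact List.mem_cons_of_mem _ (List.mem_append_right _ hv)
  rw [List.mem_append] at hq
  rcases hq with hq | hq
  · obtain ⟨L1, p, L2, e1, e2⟩ := mem_flat_split hq
    rcases e2 with rfl | rfl
    · exfalso
      rw [e1] at h1
      obtain ⟨μ', h3, _, _⟩ := h1.retract
      exact A_not_D h ⟨μ', _, p.2, L2, B, h3⟩ hqD
    · obtain ⟨N, hN⟩ : ∃ N, L1 ++ [p] = (a, s) :: N := by
        cases L1 with
        | nil =>
          simp only [List.nil_append, List.cons.injEq] at e1
          exact ⟨[], by rw [← e1.1]; rfl⟩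
        | cons r L1 =>
          simp only [List.cons_append, List.cons.injEq] at e1
          exact ⟨L1 ++ [p], by rw [← e1.1]; rfl⟩
      have hsplit : (a, s) :: L = ((a, s) :: N) ++ L2 := by
        rw [e1, ← hN]; simp
      have h1' : Fl G E μ u (((a, s) :: N) ++ L2) B := by rwa [← hsplit]
      obtain ⟨μ', h3, h4, h5⟩ := h1'.retract
      have he : endp u ((a, s) :: N) = p.2 := by rw [← hN, endp_append]; rfl
      rw [he] at h3 h4
      have hflat : flat ((a, s) :: L) = flat ((a, s) :: N) ++ flat L2 := by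
        rw [hsplit, flat_append]
      refine ⟨μ', L2, B, h3, ?_, ?_, ?_⟩
      · simp only [revp] at h4
        rw [alt_append] at h4
        exact h4.2.2.1
      · intro v hv
        apply h5
        intro hv'
        apply hv
        rw [hflat]
        rw [List.mem_cons] at hv' ⊢
        rcases hv' with hv' | hv'
        · exact Or.inl hv'
        · exact Or.inr (List.mem_append_left _ (List.mem_append_left _ hv'))
      · intro v hv
        rw [hflat]
        rw [hflat] at hnd
        rw [List.mem_append] at hv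
        simp only [flat, List.cons_append, List.nodup_cons, List.mem_cons, List.mem_append,
          not_or] at hnd
        refine ⟨?_, ?_, ?_⟩
        · rw [List.mem_cons, List.mem_append, List.mem_append]; tauto
        · rintro rfl; tauto
        · rintro rfl; tauto
  · have hqC : q ∈ Cset E := by rw [h1.mem_C]; exact List.mem_cons_of_mem _ hq
    obtain ⟨μ1, h3, h4, h5⟩ := h1.base
    obtain ⟨μ2, B', h6, h7⟩ := h3.turn hqC
    have haC : a ∉ Cset E := fun h8 => haD (C_sub_D hre h8)
    have huC : u ∉ Cset E := S_not_C ⟨μ, _, B, h1, by simp⟩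
    refine ⟨μ2, [], B', h6, ?_, ?_, ?_⟩
    · rw [h7 a haC]
      simp only [revp] at h4
      rw [alt_append] at h4
      exact h4.2.2.1
    · intro v hv
      rw [h7 v (fun h8 => hv (hCF v h8)), h5 v]
      intro hv'
      apply hv
      rw [List.mem_cons] at hv' ⊢
      rcases hv' with hv' | hv'
      · exact Or.inl hv'
      · exact Or.inr (List.mem_append_left _ hv')
    · intro v hv
      have hvC : v ∈ Cset E := by
        rw [h6.mem_C]
        simp only [flat, List.nil_append] at hv
        exact List.mem_cons_of_mem _ hv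
      exact ⟨hCF v hvC, fun h8 => haC (h8 ▸ hvC), fun h8 => huC (h8 ▸ hvC)⟩

theorem nbr_A {G : SimpleGraph V} (h : RDisjoint G) {E : Finset (Sym2 V)} {a y : V}
    (ha : a ∈ Aset G E) (hay : G.Adj a y) (hy : y ∈ Dset G) : y ∈ Sset G E ∨ y ∈ Cset E := by
  have haD := A_not_D h ha
  suffices hr : y ∈ reach G E by
    rcases reach_classify hr with h1 | h1 | h1
    · exact Or.inr h1
    · exact Or.inl h1
    · exact absurd hy (A_not_D h h1)
  obtain ⟨μ, u, s, L, B, h1⟩ := ha
  by_cases hyF : y ∈ u :: (flat ((a, s) :: L) ++ flat B)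
  · exact h1.reach_mem hyF
  obtain ⟨ν, hν, hνy⟩ := hy
  have hμ := h1.1.max
  have hinv := hμ.1.1
  obtain ⟨z, P, p1, p2, p3, p4, _⟩ := reachable hμ _ ν y hν hνy rfl
  have hnd := h1.1.nodup
  have hstem := h1.1.stem
  have hblo := h1.1.blossom
  rcases last_in (u :: (flat ((a, s) :: L) ++ flat B)) P with hP | ⟨P1, p, P2, e1, e2, e3⟩
  · -- the path avoids the flower
    have hzF : z ∉ flat ((a, s) :: L) ++ flat B := by
      intro hz
      rw [List.mem_append] at hz
      rcases hz with hz | hz
      · exact (alt_partner hinv hstem hz).2 p1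
      · exact (alt_partner hinv hblo hz).2 p1
    have hnot : ∀ v, v ∈ flat ((a, s) :: L) ++ flat B → v ∉ z :: flat P := by
      intro v hv hv'
      rw [List.mem_cons] at hv'
      rcases hv' with rfl | hv'
      · exact hzF hv
      · exact hP v hv' (List.mem_cons_of_mem _ hv)
    obtain ⟨μ', m1, m2, _, m4⟩ := shift hμ p1 p2 p4
    rw [p3] at m2
    have hs := alt_congr (ν := μ') hstem
      (fun v hv => m4 v (hnot v (List.mem_append_left _ hv)))
    have hb := alt_congr (ν := μ') hblo
      (fun v hv => m4 v (hnot v (List.mem_append_right _ hv)))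
    have hf : Fl G E μ' y ((a, s) :: L) B := by
      refine ⟨⟨m1, m2, ⟨hay.symm, hs.2⟩, hb, h1.1.ne, h1.1.closed, ?_⟩, h1.2⟩
      rw [List.nodup_cons] at hnd ⊢
      refine ⟨fun hy' => hyF (List.mem_cons_of_mem _ hy'), hnd.2⟩
    exact hf.reach_mem (by simp)
  · subst e1
    have hp := p2
    rw [alt_append] at hp
    obtain ⟨hp1, hp2, hp3, hp4, hp5⟩ := hp
    have he : endp z (P1 ++ [p]) = p.2 := by rw [endp_append]; rfl
    have hsplit : P1 ++ p :: P2 = (P1 ++ [p]) ++ P2 := by simp
    have hqD : p.2 ∈ Dset G := by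
      rw [← he]
      rw [hsplit] at p2 p4
      exact prefix_D hμ p1 p2 p4
    have hmp2 : μ p.2 = p.1 := by rw [← hp3, hinv]
    -- `p.2` is a covered vertex of the flower
    have hq : p.2 ∈ flat ((a, s) :: L) ++ flat B := by
      rw [List.mem_append]
      rcases e2 with e2 | e2
      · rw [List.mem_cons, List.mem_append] at e2
        rcases e2 with e2 | e2 | e2
        · exfalso; rw [e2, h1.1.root] at hp3; exact hp4 (e2.trans hp3)
        · left; rw [← hp3]; exact (alt_partner hinv hstem e2).1
        · right; rw [← hp3]; exact (alt_partner hinv hblo e2).1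
      · rw [List.mem_cons, List.mem_append] at e2
        rcases e2 with e2 | e2 | e2
        · exfalso; rw [e2, h1.1.root] at hmp2; exact hp4 (hmp2.symm.trans e2.symm)
        · exact Or.inl e2
        · exact Or.inr e2
    obtain ⟨μ', L2, B', f1, f2, f3, f4⟩ := reroute h h1 hq hqD
    have hau : a ≠ u := by
      rintro rfl
      rw [List.nodup_cons] at hnd
      exact hnd.1 (by simp [flat])
    have haF : a ∈ u :: (flat ((a, s) :: L) ++ flat B) := by simp [flat]
    have huF : u ∈ u :: (flat ((a, s) :: L) ++ flat B) := by simp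
    have hqa : p.2 ≠ a := fun h8 => haD (h8 ▸ hqD)
    have hqu : p.2 ≠ u := by
      intro h8
      rw [List.nodup_cons] at hnd
      exact hnd.1 (h8 ▸ hq)
    have hendy : endp p.2 P2 = y := by
      rw [← p3, hsplit, endp_append, he]
    have hKalt : Alt G μ' p.2 (P2 ++ [(a, u)]) := by
      rw [alt_append]
      refine ⟨alt_congr hp5 fun v hv => f3 v (e3 v hv), ?_⟩
      rw [hendy]
      exact ⟨hay.symm, f2, hau, trivial⟩
    have hn2 : (p.2 :: flat P2).Nodup := by
      rw [flat_append, ← List.cons_append, List.nodup_append] at p4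
      have := p4.2.1
      simp only [flat] at this
      exact (List.nodup_cons.mp this).2
    have hKn : (p.2 :: flat (P2 ++ [(a, u)])).Nodup := by
      rw [flat_append, ← List.cons_append, List.nodup_append]
      refine ⟨hn2, by simp [flat, hau], ?_⟩
      intro x hx w hw hxw
      subst hxw
      simp only [flat, List.mem_cons, List.not_mem_nil, or_false] at hw
      rw [List.mem_cons] at hx
      rcases hx with hx | hx
      · rcases hw with rfl | rfl
        · exact hqa hx.symm
        · exact hqu hx.symm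
      · rcases hw with rfl | rfl
        · exact e3 _ hx haF
        · exact e3 _ hx huF
    have hKd : ∀ v ∈ flat (P2 ++ [(a, u)]), v ∉ flat L2 ++ flat B' := by
      intro v hv hv'
      obtain ⟨g1, g2, g3⟩ := f4 v hv'
      rw [flat_append, List.mem_append] at hv
      rcases hv with hv | hv
      · exact e3 v hv g1
      · simp only [flat, List.mem_cons, List.not_mem_nil, or_false] at hv
        rcases hv with rfl | rfl
        · exact g2 rfl
        · exact g3 rfl
    obtain ⟨μ'', f5, _⟩ := f1.extend hKalt hKn hKd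
    refine f5.reach_mem ?_
    have h9 : y ∈ endp p.2 (P2 ++ [(a, u)]) :: flat (revp p.2 (P2 ++ [(a, u)])) := by
      rw [mem_revp, flat_append, ← List.cons_append]
      refine List.mem_append_left _ ?_
      rw [← hendy]; exact endp_mem _ _
    rw [flat_append, List.append_assoc, ← List.cons_append]
    exact List.mem_append_left _ h9

theorem A_card_le {G : SimpleGraph V} (h : RDisjoint G) {E : Finset (Sym2 V)}
    (hE : (reach G E).Nonempty) : (Aset G E).ncard ≤ (Sset G E).ncard := by
  obtain ⟨v, μ0, u, L, B, g1, g2, g3⟩ := hE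
  obtain ⟨M, hf, _, _⟩ := Fl.base (show Fl G E μ0 u L B from ⟨g1, g2⟩)
  have hM := hf.1.max
  have hinv := hM.1.1
  refine Set.ncard_le_ncard_of_injOn M ?_ ?_ (Set.toFinite _)
  · intro a ha
    have haD := A_not_D h ha
    have hMa : M a ≠ a := fun h1 => haD ⟨M, hM, h1⟩
    have hadj : G.Adj a (M a) := hM.1.2 a hMa
    rcases nbr_A h ha hadj (partner_A h ha hM) with h2 | h2
    · exact h2
    · exfalso
      have haC : a ∉ Cset E := fun h8 => haD (C_sub_D ⟨u, _, u, L, B, g1, g2, by simp⟩ h8)
      rw [hf.mem_C, List.mem_cons] at h2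
      rcases h2 with h2 | h2
      · simp only [endp] at h2
        have h3 := hinv a
        rw [h2] at h3
        have h4 := hf.1.root
        rw [h4] at h3
        exact hMa (h2.trans h3)
      · have h3 := (alt_partner hinv hf.1.blossom h2).1
        rw [hinv] at h3
        exact haC ((hf.mem_C a).mpr (List.mem_cons_of_mem _ h3))
  · intro x _ y _ hxy
    have := congrArg M hxy
    rwa [hinv, hinv] at this

/-- Permutations along edges preserve every reach set. -/
theorem perm_reach {G : SimpleGraph V} (h : RDisjoint G) {E : Finset (Sym2 V)}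
    (hE : (reach G E).Nonempty) (σ : Equiv.Perm V) (hσ : ∀ i, G.Adj (σ i) i) (i : V) :
    σ i ∈ reach G E ↔ i ∈ reach G E := by
  have hcard := A_card_le h hE
  have hgen : ∀ τ : Equiv.Perm V, (∀ i, G.Adj (τ i) i) → τ '' Sset G E = Aset G E := by
    intro τ hτ
    apply Set.eq_of_subset_of_ncard_le
    · rintro _ ⟨i, hi, rfl⟩
      exact nbr_S h hi (hτ i).symm
    · rwa [Set.ncard_image_of_injective _ τ.injective]
    · exact Set.toFinite _
  have h1 := hgen σ hσ
  have h2 := hgen σ.symm (fun i => by have := (hσ (σ.symm i)).symm; rwa [σ.apply_symm_apply] at this)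
  have hSA : ∀ i, σ i ∈ Aset G E ↔ i ∈ Sset G E := by
    intro i
    rw [← h1]
    constructor
    · rintro ⟨j, hj, hji⟩
      rwa [← σ.injective hji]
    · intro hi; exact ⟨i, hi, rfl⟩
  have hAS : ∀ i, i ∈ Aset G E ↔ σ i ∈ Sset G E := by
    intro i
    rw [← h2]
    constructor
    · rintro ⟨j, hj, hji⟩
      rw [← hji, σ.apply_symm_apply]; exact hj
    · intro hi; exact ⟨σ i, hi, σ.symm_apply_apply i⟩
  have hCC : ∀ i, i ∈ Cset E → σ i ∈ Cset E := by
    intro i hi
    by_contra hc
    have := nbr_C hE hi (hσ i).symm hc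
    rw [hSA] at this
    exact S_not_C this hi
  have hCC' : ∀ i, σ i ∈ Cset E → i ∈ Cset E := by
    intro i hi
    by_contra hc
    have := nbr_C hE hi (hσ i) hc
    rw [hAS] at this
    exact S_not_C this hi
  have hchar : ∀ v, v ∈ reach G E ↔ (v ∈ Cset E ∨ v ∈ Sset G E ∨ v ∈ Aset G E) := by
    intro v
    constructor
    · exact reach_classify
    · rintro (h3 | h3 | h3)
      · exact C_sub_reach hE h3
      · exact S_sub_reach h3
      · exact A_sub_reach h3
  rw [hchar, hchar]
  constructor
  · rintro (h3 | h3 | h3)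
    · exact Or.inl (hCC' i h3)
    · exact Or.inr (Or.inr ((hAS i).mpr h3))
    · exact Or.inr (Or.inl ((hSA i).mp h3))
  · rintro (h3 | h3 | h3)
    · exact Or.inl (hCC i h3)
    · exact Or.inr (Or.inr ((hSA i).mpr h3))
    · exact Or.inr (Or.inl ((hAS i).mp h3))

/-! ### The determinant -/

open Classical in
/-- The class of a vertex: the odd cycle whose reach set contains it, if any. -/
noncomputable def cls (G : SimpleGraph V) (v : V) : Option (Finset (Sym2 V)) :=
  if h : ∃ E, IsOddCycle G E ∧ v ∈ reach G E then some h.choose else none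

theorem cls_some {G : SimpleGraph V} (h : RDisjoint G) (v : V) (E : Finset (Sym2 V)) :
    cls G v = some E ↔ IsOddCycle G E ∧ v ∈ reach G E := by
  unfold cls
  split_ifs with h1
  · have h2 := h1.choose_spec
    rw [Option.some_inj]
    constructor
    · rintro h3; rw [← h3]; exact h2
    · intro h3
      by_contra hne
      exact Set.disjoint_left.mp (h.disjoint _ _ h2.1 h3.1 hne) h2.2 h3.2
  · constructor
    · intro h2; exact absurd h2 (by simp)
    · intro h2; exact absurd ⟨E, h2⟩ h1

theorem cls_none {G : SimpleGraph V} (v : V) : cls G v = none ↔ v ∈ rest G := by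
  unfold cls
  split_ifs with h1
  · constructor
    · intro h2; exact absurd h2 (by simp)
    · intro h2
      obtain ⟨E, h3, h4⟩ := h1
      exact absurd h4 (h2 E h3)
  · constructor
    · intro _ E hE hv; exact h1 ⟨E, hE, hv⟩
    · intro _; rfl

theorem cls_perm {G : SimpleGraph V} (h : RDisjoint G) (σ : Equiv.Perm V)
    (hσ : ∀ i, G.Adj (σ i) i) (i : V) : cls G (σ i) = cls G i := by
  cases hi : cls G i with
  | some E =>
    rw [cls_some h] at hi ⊢
    exact ⟨hi.1, (perm_reach h (h.nonempty E hi.1) σ hσ i).mpr hi.2⟩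
  | none =>
    rw [cls_none] at hi ⊢
    intro E hE hv
    exact hi E hE ((perm_reach h (h.nonempty E hE) σ hσ i).mp hv)

theorem det_blocks {n : ℕ} (M : Matrix V V ℝ) (b : V → Fin n)
    (h : ∀ i j, b i ≠ b j → M i j = 0) :
    M.det = ∏ a : Fin n, (M.submatrix (Subtype.val : {i // b i = a} → V) Subtype.val).det := by
  have h1 : M.BlockTriangular b := fun i j hij => h i j (ne_of_gt hij)
  rw [h1.det]
  rw [← Finset.prod_subset (Finset.subset_univ (univ.image b))]
  · rfl
  · intro a _ ha
    have : IsEmpty {i // b i = a} := ⟨fun i => ha (by rw [← i.2]; simp)⟩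
    exact Matrix.det_isEmpty

open Classical in
theorem adjDet_eq (G : SimpleGraph V) (X : Set V) (p : V → Prop) [DecidablePred p]
    (hX : ∀ v, v ∈ X ↔ p v) :
    adjDet G X = ((G.adjMatrix ℝ).submatrix (Subtype.val : {v // p v} → V) Subtype.val).det := by
  unfold adjDet
  let e : {v // p v} ≃ X := Equiv.subtypeEquivRight (fun v => (hX v).symm)
  rw [← Matrix.det_submatrix_equiv_self e]
  congr 1

open Classical in
theorem adjDet_of_empty (G : SimpleGraph V) (X : Set V) (hX : X = ∅) : adjDet G X = 1 := by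
  unfold adjDet
  have : IsEmpty X := Set.isEmpty_coe_sort.mpr hX
  exact Matrix.det_isEmpty

open Classical in
theorem det_factor {G : SimpleGraph V} (h : RDisjoint G) :
    (G.adjMatrix ℝ).det = adjDet G (rest G) * ∏ E ∈ oddCycles G, adjDet G (reach G E) := by
  let e := Fintype.equivFin (Option (Finset (Sym2 V)))
  let b : V → Fin _ := fun v => e (cls G v)
  let M' : Matrix V V ℝ := Matrix.of fun i j => if cls G i = cls G j then G.adjMatrix ℝ i j else 0
  have hdet : (G.adjMatrix ℝ).det = M'.det := by
    rw [Matrix.det_apply, Matrix.det_apply]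
    refine Finset.sum_congr rfl fun σ _ => ?_
    congr 1
    by_cases hσ : ∀ i, G.Adj (σ i) i
    · refine Finset.prod_congr rfl fun i _ => ?_
      simp only [M', Matrix.of_apply]
      rw [if_pos (cls_perm h σ hσ i)]
    · push Not at hσ
      obtain ⟨i, hi⟩ := hσ
      rw [Finset.prod_eq_zero (mem_univ i), Finset.prod_eq_zero (mem_univ i)]
      · simp [M', hi]
      · simp [hi]
  rw [hdet, det_blocks M' b (by
    intro i j hij
    simp only [M', Matrix.of_apply]
    rw [if_neg]
    intro h2; exact hij (by simp only [b, h2]))]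
  have hblock : ∀ o : Option (Finset (Sym2 V)),
      (M'.submatrix (Subtype.val : {i // b i = e o} → V) Subtype.val).det
        = adjDet G {v | cls G v = o} := by
    intro o
    rw [adjDet_eq G {v | cls G v = o} (fun v => b v = e o)
      (fun v => by simp only [Set.mem_ofPred_eq, b, EmbeddingLike.apply_eq_iff_eq])]
    congr 1
    ext i j
    simp only [Matrix.submatrix_apply, M', Matrix.of_apply]
    rw [if_pos]
    have hi := i.2
    have hj := j.2
    exact e.injective (hi.trans hj.symm)
  rw [← Equiv.prod_comp e]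
  simp only [hblock]
  rw [Fintype.prod_option]
  congr 1
  · congr 1
    ext v
    exact cls_none v
  · rw [oddCycles, Finset.prod_filter]
    refine Finset.prod_congr rfl fun E _ => ?_
    split_ifs with hE
    · congr 1
      ext v
      simp only [Set.mem_ofPred_eq]
      rw [cls_some h]
      exact ⟨fun h1 => h1.2, fun h1 => ⟨hE, h1⟩⟩
    · have hemp : {v | cls G v = some E} = ∅ := by
        ext v
        simp only [Set.mem_ofPred_eq, Set.mem_empty_iff_false, iff_false]
        rw [cls_some h]
        exact fun h1 => hE h1.1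
      exact adjDet_of_empty G _ hemp

/-- **Determinant factorisation for `R`-disjoint graphs.** If `G` is `R`-disjoint, with odd cycles
`C₁, …, C_k`, reach sets `R_i` and `B(G)` the set of the remaining vertices, then
`det A(G) = det A(G[B(G)]) · ∏ det A(G[R_i])`. -/
theorem result (G : SimpleGraph V) [inst : DecidableRel G.Adj] (h : RDisjoint G) :
    (G.adjMatrix ℝ).det = adjDet G (rest G) * ∏ E ∈ oddCycles G, adjDet G (reach G E) := by
  have e : inst = fun a b => Classical.propDecidable (G.Adj a b) := Subsingleton.elim _ _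
  subst e
  exact det_factor h

end Pool.Agent.Results.MP_079569_co.FlowerDeterminant
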